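import Pool.Agent.TH886.PrimeScales

/-!
# At almost all primes of every short interval all but boundedly many scales are good, with densities bounded from below

For a prime `p`, a dyadic scale `D = 2 ^ j` with `log p ≤ D ≤ Y` is good at `p` if the primes have a
constant density `lam / log p`, `c₁ ≤ lam ≤ c₂`, on `[p - D, p + D]`: for ALL subintervals `(u, v]` of
`[p - D, p + D]` the number of primes in `(u, v]` differs from `lam (v - u) / log p` by at most
`δ D / log p`.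

For every `θ` in `(0, 1]` and every `η > 0` there are `0 < c₁` and `c₂` such that for every `δ > 0`
there is a `K` such that for all large `X` and EVERY `Y` with `X ^ θ ≤ Y ≤ X` the following holds: all
but at most `η Y / log X` of the primes `p` of `(X, X + Y]` have at most `K` scales below `Y` which are
not good. No hypothesis on the number of primes of short intervals is used, and the densities are
bounded from below by a positive constant.
-/

set_option autoImplicit false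

namespace Pool.Agent.Results.MP_31d0eb_nt.FewBadScalesAtPrimes

open Filter

/-- up to `δ` the primes have a constant density `lam / log n` with `c₁ ≤ lam ≤ c₂` on
`[n - D, n + D]` -/
def ConstantDensity (c₁ c₂ δ : ℝ) (n D : ℕ) : Prop :=
  ∃ lam : ℝ, c₁ ≤ lam ∧ lam ≤ c₂ ∧ ∀ u v : ℕ, n ≤ u + D → u ≤ v → v ≤ n + D →
    |(((Finset.Ioc u v).filter Nat.Prime).card : ℝ) - lam * ((v : ℝ) - u) / Real.log n| ≤
      δ * D / Real.log n

/-- the number of `j` with `log n ≤ 2 ^ j ≤ Y` for which the primes do not have a constant density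
on `[n - 2 ^ j, n + 2 ^ j]` -/
noncomputable def badScales (c₁ c₂ δ : ℝ) (Y n : ℕ) : ℕ :=
  Set.ncard {j : ℕ | Real.log n ≤ (2 : ℝ) ^ j ∧ 2 ^ j ≤ Y ∧ ¬ ConstantDensity c₁ c₂ δ n (2 ^ j)}

lemma badScales_eq (c₁ c₂ δ : ℝ) (Y n : ℕ) (hY : Y ≠ 0) :
    badScales c₁ c₂ δ Y n = Pool.Agent.Results.MP_31d0eb_nt.FewBadScales.badScales c₁ c₂ δ Y n := by
  classical
  unfold badScales Pool.Agent.Results.MP_31d0eb_nt.FewBadScales.badScales
  rw [← Set.ncard_coe_finset]
  congr 1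
  ext j
  rw [Finset.coe_filter, Set.mem_ofPred_eq, Set.mem_ofPred_eq, Finset.mem_range, Nat.lt_succ_iff,
    Nat.le_log_iff_pow_le (by norm_num) hY]
  constructor
  · rintro ⟨h1, h2, h3⟩; exact ⟨h2, h1, h3⟩
  · rintro ⟨h1, h2, h3⟩; exact ⟨h2, h1, h3⟩

/-- **Few bad scales at almost all primes of every short interval.** -/
theorem result (θ : ℝ) (hθ0 : 0 < θ) (hθ1 : θ ≤ 1) (η : ℝ) (hη : 0 < η) :
    ∃ c₁ c₂ : ℝ, 0 < c₁ ∧ ∀ δ : ℝ, 0 < δ → ∃ K : ℕ, ∀ᶠ X : ℕ in atTop,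
      ∀ Y : ℕ, (X : ℝ) ^ θ ≤ Y → Y ≤ X →
        (Set.ncard {p : ℕ | p.Prime ∧ X < p ∧ p ≤ X + Y ∧ K < badScales c₁ c₂ δ Y p} : ℝ) ≤
          η * Y / Real.log X := by
  classical
  obtain ⟨c₁, c₂, hc₁, h⟩ := Pool.Agent.TH886.PS.main θ hθ0 hθ1 η hη
  refine ⟨c₁, c₂, hc₁, fun δ hδ => ?_⟩
  obtain ⟨K, hK⟩ := h δ hδ
  refine ⟨K, ?_⟩
  filter_upwards [hK, eventually_gt_atTop 0] with X hX hX0
  intro Y hY hYX
  have hY0 : Y ≠ 0 := by
    intro h0
    rw [h0, Nat.cast_zero] at hY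
    have : (0 : ℝ) < (X : ℝ) ^ θ := Real.rpow_pos_of_pos (by exact_mod_cast hX0) θ
    linarith
  refine le_trans (le_of_eq ?_) (hX Y hY hYX)
  congr 1
  rw [← Set.ncard_coe_finset]
  congr 1
  ext p
  rw [Finset.coe_filter, Set.mem_ofPred_eq, Set.mem_ofPred_eq, Finset.mem_Ioc, badScales_eq _ _ _ _ _ hY0]
  constructor
  · rintro ⟨h1, h2, h3, h4⟩; exact ⟨⟨h2, h3⟩, h1, h4⟩
  · rintro ⟨⟨h1, h2⟩, h3, h4⟩; exact ⟨h3, h1, h2, h4⟩

end Pool.Agent.Results.MP_31d0eb_nt.FewBadScalesAtPrimes
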