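import Pool.Agent.U28.SF.SF19
import Pool.Agent.Q278.KT.Fin

set_option autoImplicit false

/-!
# Vectors of gaps between primes in almost all windows of length `X ^ (3/16 - δ)`, in all short intervals

Let `(θ, e)` be one of `(1/2, 0.306)`, `(0.57, 0.045)`, `(3/16, 13/16)`. With at most `X ^ (e - δ)` exceptions, the disjoint
windows `(u, u + N] ⊆ [X, 3 X]` of length `N ≥ X ^ (θ - δ)` have the following property. A positive proportion of all the
vectors `(g_1, …, g_l)` of positive integers `≤ K log N` occur in the window as the vector of `l` consecutive gaps between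
primes with the expected frequency `N / (log N) ^ (l + 1)`, and they are spread regularly at all scales: for a positive
proportion of the integers `y` of the window ALL the intervals `(y, y + H]`, `C (log N) ^ (l + 1) ≤ H ≤ N`, contain at least
a constant times `H / (log N) ^ (l + 1)` of the positions; the same for every subset `U` of positive relative density of the
set of the positions, and even for the elements of `U` which are the first of `m` terms of an arithmetic progression in `U`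
with difference at most a power of `log N`.

Proof: the number of separated intervals with few primes (`Pool.Agent.Q278.KT`, starting library), the upper bound sieve and
the second moment of the singular series (`Pool.Agent.Y840.PT`, `Pool.Agent.TH891.SG`; the counting of the gap vectors is
`Pool.Agent.U766.OP.Gap`, helper766), the energy of dense sets of prime tuples at their mean spacing and a covering argument
(`Pool.Agent.U28.SF`), and Szemerédi's theorem for sifted sets of the starting library.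
-/

namespace Pool.Agent.Results.MP_31d0eb_nt.GapVectorsInShortWindows

open Finset Filter

/-- the primes, numbered from `pr 0 = 2` -/
noncomputable def pr (n : ℕ) : ℕ := Nat.nth Nat.Prime n

open Classical in
/-- the primes `q` of `(u, u + N]` such that the next `l` gaps between primes are `g 0, …, g (l - 1)` and the last of these
`l + 1` primes is at most `u + N` -/
noncomputable def Pos {l : ℕ} (g : Fin l → ℕ) (u N : ℕ) : Finset ℕ :=
  (Ioc u (u + N)).filter (fun q => ∃ n, pr n = q ∧ pr (n + l) ≤ u + N ∧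
    ∀ i : Fin l, pr (n + i + 1) = pr (n + i) + g i)

/-- `q` is the first of `m` terms of an arithmetic progression in `U` with difference between `1` and `D` -/
def FirstTerm (m : ℕ) (D : ℝ) (U : Finset ℕ) (q : ℕ) : Prop :=
  ∃ d : ℕ, 1 ≤ d ∧ (d : ℝ) ≤ D ∧ ∀ j < m, q + j * d ∈ U

open Classical in
/-- At least `κ N` of the integers `u ≤ y ≤ u + N` are such that for ALL natural numbers `H ≤ N` with
`(log N) ^ r ≤ κ H` the interval `(y, y + H]` contains at least `κ H / (log N) ^ r` integers with the property `P`. -/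
def Everywhere (κ : ℝ) (r u N : ℕ) (P : ℕ → Prop) : Prop :=
  κ * N ≤ (((Icc u (u + N)).filter (fun y => ∀ H : ℕ, Real.log N ^ r ≤ κ * H → H ≤ N →
    κ * (H / Real.log N ^ r) ≤ (((Ioc y (y + H)).filter P).card : ℝ))).card : ℝ)

/-- The vector `g` has at least `κ N / (log N) ^ (l + 1)` positions in the window, and every set `U` of positions of
relative density at least `ρ` satisfies `Everywhere κ (l + 1) u N (FirstTerm m ((log N) ^ B) U)`. -/
def Good {l : ℕ} (κ ρ : ℝ) (m B u N : ℕ) (g : Fin l → ℕ) : Prop :=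
  κ * (N / Real.log N ^ (l + 1)) ≤ (Pos g u N).card ∧
    ∀ U ⊆ Pos g u N, ρ * (Pos g u N).card ≤ U.card → Everywhere κ (l + 1) u N (FirstTerm m (Real.log N ^ B) U)

open Classical in
/-- At least `η (log N) ^ l` of the vectors `g` with `1 ≤ g i ≤ K log N` are good in the window `(u, u + N]`. -/
def Rich (l : ℕ) (K η κ ρ : ℝ) (m B u N : ℕ) : Prop :=
  η * Real.log N ^ l ≤
    (((Fintype.piFinset (fun _ : Fin l => Icc 1 ⌊K * Real.log N⌋₊)).filter (Good κ ρ m B u N)).card : ℝ)

/-- Let `(θ, e)` be one of the three pairs. There is `δ > 0` such that for every `l` there are `K, η > 0` such that for all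
`m` and `ρ > 0` there are `κ > 0`, `B` and `X₀` such that for all `X ≥ X₀` and `X ^ (θ - δ) ≤ N ≤ X ^ 0.9` every family of
pairwise disjoint windows `(u, u + N]`, `X ≤ u ≤ 2 X`, which are not `Rich l K η κ ρ m B`, has at most `X ^ (e - δ)`
members. -/
theorem result (θ e : ℝ) (hpair : (θ = 1 / 2 ∧ e = 0.306) ∨ (θ = 0.57 ∧ e = 0.045) ∨ (θ = 3 / 16 ∧ e = 13 / 16)) :
    ∃ δ : ℝ, 0 < δ ∧ ∀ l : ℕ, ∃ K η : ℝ, 0 < K ∧ 0 < η ∧ ∀ (m : ℕ) (ρ : ℝ), 0 < ρ →
      ∃ κ : ℝ, 0 < κ ∧ ∃ B X₀ : ℕ, ∀ X N : ℕ, X₀ ≤ X → (X : ℝ) ^ (θ - δ) ≤ N → (N : ℝ) ≤ (X : ℝ) ^ (0.9 : ℝ) →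
        ∀ P : Finset ℕ, (∀ u ∈ P, X ≤ u ∧ u ≤ 2 * X ∧ ¬ Rich l K η κ ρ m B u N) →
          (∀ u ∈ P, ∀ u' ∈ P, u < u' → u + N ≤ u') → (P.card : ℝ) ≤ (X : ℝ) ^ (e - δ) := by
  have key : ∀ {lam0 e0 : ℝ}, Pool.Agent.Q240.KS.MAINP lam0 e0 → 0 ≤ lam0 → lam0 ≤ 0.82 → e0 ≤ 1 → θ = 1 - lam0 → e = e0 →
      ∃ δ : ℝ, 0 < δ ∧ ∀ l : ℕ, ∃ K η : ℝ, 0 < K ∧ 0 < η ∧ ∀ (m : ℕ) (ρ : ℝ), 0 < ρ →
      ∃ κ : ℝ, 0 < κ ∧ ∃ B X₀ : ℕ, ∀ X N : ℕ, X₀ ≤ X → (X : ℝ) ^ (θ - δ) ≤ N → (N : ℝ) ≤ (X : ℝ) ^ (0.9 : ℝ) →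
        ∀ P : Finset ℕ, (∀ u ∈ P, X ≤ u ∧ u ≤ 2 * X ∧ ¬ Rich l K η κ ρ m B u N) →
          (∀ u ∈ P, ∀ u' ∈ P, u < u' → u + N ≤ u') → (P.card : ℝ) ≤ (X : ℝ) ^ (e - δ) := by
    intro lam0 e0 hM h0 h1 h2 hθ he
    subst hθ
    subst he
    obtain ⟨δ, hδ, h⟩ := Pool.Agent.U28.SF.rich_few hM h0 h1 h2
    refine ⟨δ, hδ, fun l => ?_⟩
    obtain ⟨K, η, hK, hη, h⟩ := h l
    refine ⟨K, η, hK, hη, fun m ρ hρ => ?_⟩
    obtain ⟨κ, hκ, B, h⟩ := h m ρ hρ
    obtain ⟨X₀, h⟩ := eventually_atTop.1 h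
    exact ⟨κ, hκ, B, X₀, fun X N hX hN1 hN2 P hP hs => h X hX N hN1 hN2 P hP hs⟩
  rcases hpair with ⟨h1, h2⟩ | ⟨h1, h2⟩ | ⟨h1, h2⟩
  · exact key Pool.Agent.Q278.KT.mainp_half (by norm_num) (by norm_num) (by norm_num) (by rw [h1]; norm_num) h2
  · exact key Pool.Agent.Q278.KT.mainp_043 (by norm_num) (by norm_num) (by norm_num) (by rw [h1]; norm_num) h2
  · exact key Pool.Agent.Q278.KT.mainp_1316 (by norm_num) (by norm_num) (by norm_num) (by rw [h1]; norm_num) h2

end Pool.Agent.Results.MP_31d0eb_nt.GapVectorsInShortWindows
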