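import Pool.Agent.U762.GP.Seq
import Pool.Agent.N490.OW.KT
import Pool.Agent.N455.OW.PV
import Pool.Agent.R516.TwoI
import Pool.Agent.R516.Core

/-! Primes in all the short intervals behind the terms of almost every geometric progression. -/

set_option autoImplicit false

open Filter Topology MeasureTheory

namespace Pool.Agent.Results.MP_31d0eb_nt.GeometricProgressions

/-- `primesIn x H` is the number of primes `p` with `x < p ≤ x + H`. -/
noncomputable def primesIn (x H : ℝ) : ℕ :=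
  ((Finset.Ioc ⌊x⌋₊ ⌊x + H⌋₊).filter Nat.Prime).card

lemma primesIn_eq {x H : ℝ} (hH : 0 ≤ H) :
    (primesIn x H : ℝ) = Nat.primeCounting ⌊x + H⌋₊ - Nat.primeCounting ⌊x⌋₊ := by
  have hab : ⌊x⌋₊ ≤ ⌊x + H⌋₊ := Nat.floor_mono (by linarith)
  have h1 : primesIn x H + Nat.primeCounting ⌊x⌋₊ = Nat.primeCounting ⌊x + H⌋₊ := by
    unfold primesIn
    simp only [Nat.primeCounting, Nat.primeCounting', Nat.count_eq_card_filter_range]
    rw [← Finset.card_union_of_disjoint]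
    · congr 1
      ext p
      simp only [Finset.mem_union, Finset.mem_filter, Finset.mem_Ioc, Finset.mem_range]
      constructor
      · rintro (⟨⟨h1, h2⟩, h3⟩ | ⟨h1, h2⟩)
        · exact ⟨by omega, h3⟩
        · exact ⟨by omega, h2⟩
      · rintro ⟨h1, h2⟩
        by_cases h3 : ⌊x⌋₊ < p
        · exact Or.inl ⟨⟨h3, by omega⟩, h2⟩
        · exact Or.inr ⟨by omega, h2⟩
    · rw [Finset.disjoint_left]
      intro p hp hq
      rw [Finset.mem_filter, Finset.mem_Ioc] at hp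
      rw [Finset.mem_filter, Finset.mem_range] at hq
      omega
  have h2 : ((primesIn x H + Nat.primeCounting ⌊x⌋₊ : ℕ) : ℝ) = Nat.primeCounting ⌊x + H⌋₊ := by
    exact_mod_cast congrArg (fun n : ℕ => (n : ℝ)) h1
  push_cast at h2
  linarith

open Classical in
/-- Let `s n ≥ 1` tend to infinity and let `w n ≥ 0` have a divergent sum and uniformly bounded
sums over the dyadic blocks `t ≤ s n ≤ 2 t`. For almost every real `α > 1` and for all `μ < 1`,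
`δ > 0`: the `n` such that, with `x = α ^ s n`, EVERY real `H` with `(log x) ^ 23 ≤ H ≤ x` has
`μ H / log x ≤ π(x, H) ≤ (18 / 5 + δ) H / log x`, have lower `w`-density at least
`(1 - μ) / (18 / 5 - μ)`. -/
theorem result {s w : ℕ → ℝ} {C : ℝ} (hs1 : ∀ n, 1 ≤ s n) (hs : Tendsto s atTop atTop)
    (hw0 : ∀ n, 0 ≤ w n)
    (hdy : ∀ t : ℝ, 1 ≤ t → ∀ F : Finset ℕ, (∀ n ∈ F, t ≤ s n ∧ s n ≤ 2 * t) → ∑ n ∈ F, w n ≤ C)
    (hdiv : Tendsto (fun N => ∑ n ∈ Finset.range N, w n) atTop atTop) :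
    ∀ᵐ α ∂(volume.restrict (Set.Ioi (1 : ℝ))), ∀ μ δ ε : ℝ, 0 < μ → μ < 1 → 0 < δ → 0 < ε →
      ∀ᶠ N : ℕ in atTop, ((1 - μ) / (18 / 5 - μ) - ε) * ∑ n ∈ Finset.range N, w n ≤
        ∑ n ∈ (Finset.range N).filter (fun n => ∀ H : ℝ,
          Real.log (α ^ s n) ^ 23 ≤ H → H ≤ α ^ s n →
            μ * (H / Real.log (α ^ s n)) ≤ primesIn (α ^ s n) H ∧
            primesIn (α ^ s n) H ≤ (18 / 5 + δ) * (H / Real.log (α ^ s n))), w n := by
  have hW : Pool.Agent.U762.GP.WS s w C := ⟨hs1, hw0, hdy⟩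
  have hKT : Pool.Agent.U762.GP.KT4 := by
    obtain ⟨c0, Z0, h1, h2, h3⟩ := Pool.Agent.N490.OW.kt Pool.Agent.N455.OW.pv 4
    exact ⟨c0, Z0, h1, h2, h3⟩
  have hU : Pool.Agent.R516.St_U := Pool.Agent.R516.winU Pool.Agent.R516.core
  obtain ⟨c, hc, hc1, hbig⟩ := Pool.Agent.U762.GP.bigD hKT
  have h := Pool.Agent.U762.GP.seq_all hW hs hdiv hc hc1 hbig hU
  filter_upwards [h, ae_restrict_mem measurableSet_Ioi] with α hα hα1 μ δ ε hμ0 hμ1 hδ hε
  filter_upwards [hα μ δ ε hμ0 hμ1 hδ hε] with N hN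
  refine hN.trans (le_of_eq ?_)
  rw [Finset.sum_filter]
  apply Finset.sum_congr rfl
  intro n _
  have hx1 : 1 ≤ α ^ s n := Real.one_le_rpow (le_of_lt hα1) (by linarith [hs1 n])
  have hl : 0 ≤ Real.log (α ^ s n) := Real.log_nonneg hx1
  have hiff : Pool.Agent.U762.GP.Good μ δ (α ^ s n) ↔ (∀ H : ℝ,
          Real.log (α ^ s n) ^ 23 ≤ H → H ≤ α ^ s n →
            μ * (H / Real.log (α ^ s n)) ≤ primesIn (α ^ s n) H ∧
            primesIn (α ^ s n) H ≤ (18 / 5 + δ) * (H / Real.log (α ^ s n))) := by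
    unfold Pool.Agent.U762.GP.Good
    apply forall_congr'
    intro H
    constructor
    · intro h1 h2 h3
      rw [primesIn_eq (le_trans (by positivity) h2)]
      exact h1 h2 h3
    · intro h1 h2 h3
      rw [← primesIn_eq (le_trans (by positivity) h2)]
      exact h1 h2 h3
  by_cases hg : Pool.Agent.U762.GP.Good μ δ (α ^ s n)
  · rw [if_pos hg, if_pos (hiff.1 hg)]
  · rw [if_neg hg, if_neg (fun hh => hg (hiff.2 hh))]

open Classical in
/-- The case `s n = n + 1`, `w n = 1 / (n + 1)`: logarithmic density along `α, α ^ 2, α ^ 3, …`. -/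
theorem logarithmic : ∀ᵐ α ∂(volume.restrict (Set.Ioi (1 : ℝ))), ∀ μ δ ε : ℝ, 0 < μ → μ < 1 →
    0 < δ → 0 < ε → ∀ᶠ N : ℕ in atTop,
      ((1 - μ) / (18 / 5 - μ) - ε) * ∑ n ∈ Finset.range N, 1 / ((n : ℝ) + 1) ≤
        ∑ n ∈ (Finset.range N).filter (fun n : ℕ => ∀ H : ℝ,
          Real.log (α ^ ((n : ℝ) + 1)) ^ 23 ≤ H → H ≤ α ^ ((n : ℝ) + 1) →
            μ * (H / Real.log (α ^ ((n : ℝ) + 1))) ≤ primesIn (α ^ ((n : ℝ) + 1)) H ∧
            primesIn (α ^ ((n : ℝ) + 1)) H ≤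
              (18 / 5 + δ) * (H / Real.log (α ^ ((n : ℝ) + 1)))), 1 / ((n : ℝ) + 1) := by
  refine result (s := fun n : ℕ => (n : ℝ) + 1) (w := fun n : ℕ => 1 / ((n : ℝ) + 1)) (C := 2)
    (fun n => by have : (0 : ℝ) ≤ n := Nat.cast_nonneg n; linarith)
    (tendsto_atTop_add_const_right _ _ tendsto_natCast_atTop_atTop)
    (fun n => by positivity) ?_ Real.tendsto_sum_range_one_div_nat_succ_atTop
  intro t ht F hF
  have h1 : ∀ n ∈ F, 1 / ((n : ℝ) + 1) ≤ 1 / t := fun n hn =>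
    one_div_le_one_div_of_le (by linarith) (hF n hn).1
  have h2 : F ⊆ Finset.Icc (⌈t⌉₊ - 1) (⌊2 * t⌋₊ - 1) := by
    intro n hn
    obtain ⟨a, b⟩ := hF n hn
    have a' : ⌈t⌉₊ ≤ n + 1 := Nat.ceil_le.2 (by push_cast; exact a)
    have b' : n + 1 ≤ ⌊2 * t⌋₊ := Nat.le_floor (by push_cast; exact b)
    rw [Finset.mem_Icc]
    omega
  have h3 : (F.card : ℝ) ≤ t + 1 := by
    have h4 : F.card ≤ ⌊2 * t⌋₊ - 1 + 1 - (⌈t⌉₊ - 1) := by
      have := Finset.card_le_card h2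
      rwa [Nat.card_Icc] at this
    have h5 : 1 ≤ ⌈t⌉₊ := Nat.one_le_iff_ne_zero.2 (by
      have : 0 < ⌈t⌉₊ := Nat.ceil_pos.2 (by linarith)
      omega)
    have h6 : ⌈t⌉₊ ≤ ⌊2 * t⌋₊ := by
      apply Nat.ceil_le.2
      have : 2 * t < ⌊2 * t⌋₊ + 1 := Nat.lt_floor_add_one _
      linarith
    have h7 : F.card + ⌈t⌉₊ ≤ ⌊2 * t⌋₊ + 1 := by omega
    have h8 : (F.card : ℝ) + ⌈t⌉₊ ≤ ⌊2 * t⌋₊ + 1 := by exact_mod_cast h7
    have h9 : (⌊2 * t⌋₊ : ℝ) ≤ 2 * t := Nat.floor_le (by linarith)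
    have h10 : t ≤ ⌈t⌉₊ := Nat.le_ceil t
    linarith
  calc ∑ n ∈ F, 1 / ((n : ℝ) + 1) ≤ ∑ _n ∈ F, 1 / t := Finset.sum_le_sum h1
    _ = F.card * (1 / t) := by rw [Finset.sum_const, nsmul_eq_mul]
    _ ≤ (t + 1) * (1 / t) := mul_le_mul_of_nonneg_right h3 (by positivity)
    _ = 1 + 1 / t := by field_simp
    _ ≤ 2 := by
        have : 1 / t ≤ 1 / 1 := one_div_le_one_div_of_le (by norm_num) ht
        linarith

end Pool.Agent.Results.MP_31d0eb_nt.GeometricProgressions
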