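import Pool.Agent.U124.BW.B

set_option autoImplicit false

/-!
# Windows of arbitrary length `H ≥ λ log X` at the numbers `a e c`, `(a, e)` in a dense relation

Let `θ > 0` be arbitrarily small, let `A` be an arbitrary set of positive integers `≤ X ^ θ` which contains a positive proportion
of the integers, or of the primes, up to `X ^ θ`, let `E` be a COMPLETELY ARBITRARY finite set of reals in `[κ₀ X ^ η, X ^ η]`
(there is no density or spacing condition; it may be sparse), and let `R` be an arbitrary subset of `A × E` with at least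
`δ |A| |E|` elements.  Let `C` be a finite set of reals in `(0, X ^ (1 - θ - η)]` which is spread at the scale of the windows.
Then for all lengths `H` from `λ log X` to `X ^ (1 - ρ)` the intervals `(a e c - H, a e c)` contain the expected number of primes on
average over `(a, e) ∈ R` for almost every single `c ∈ C`, and on average over `c ∈ C` for almost every single `(a, e) ∈ R`; and for
almost all `n`-tuples of elements of `C` a positive proportion of the pairs in `R` has primes in all the `n` windows, and almost all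
pairs have a prime in one of them if `n` is larger than a constant (and the same with `R` and `C` exchanged).  The first part says
more: the normalised number of primes is uncorrelated with all products of a bounded function of `(a, e)` and a bounded function of
`(e, c)`.

For `E = {1}`, `η = 0`, `R = A × {1}` this is the theorem on product sets of the starting library.  If `A` consists of primes in
`(X ^ θ / 2, X ^ θ]` and `E` of integers smaller than these, then the numbers `a e`, `(a, e) ∈ R`, are distinct: they form sets of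
integers which are determined by their largest prime factor and which can be very sparse, for example sets of integers with exactly
`k` prime factors.
-/

namespace Pool.Agent.Results.MP_31d0eb_nt.WindowsOnRelations

open Finset

/-- a set of positive integers up to `X ^ θ` which contains a positive proportion of the integers, or a set of primes up to
`X ^ θ` which contains a positive proportion of the primes -/
def Dense (δ θ X : ℝ) (A : Finset ℕ) : Prop :=
  (∀ a ∈ A, 1 ≤ a ∧ (a : ℝ) ≤ X ^ θ) ∧ (δ * X ^ θ ≤ A.card ∨ ((∀ a ∈ A, a.Prime) ∧ δ * (X ^ θ / Real.log X) ≤ A.card))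

/-- a finite set of reals in `(0, X ^ (1 - θ)]` at most the proportion `B H / X` of which lies in any interval of length
`H / X ^ θ` -/
def Spread (B H θ X : ℝ) (C : Finset ℝ) : Prop :=
  (∀ c ∈ C, 0 < c ∧ c ≤ X ^ (1 - θ)) ∧
    ∀ u : ℝ, ((C.filter (fun c => u ≤ c ∧ c ≤ u + H / X ^ θ)).card : ℝ) ≤ B * (H / X) * C.card

/-- the number of primes in the open interval `(x - H, x)`, divided by its expected value `H / log x` -/
noncomputable def density (H x : ℝ) : ℝ :=
  (Set.ncard {p : ℕ | p.Prime ∧ x - H < p ∧ (p : ℝ) < x} : ℝ) * Real.log x / H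

/-- the interval `(x - H, x)` contains a prime -/
def HasPrime (H x : ℝ) : Prop := ∃ p : ℕ, p.Prime ∧ x - H < p ∧ (p : ℝ) < x

/-- the set of the `n`-tuples of elements of `S` -/
def tuples {α : Type} [DecidableEq α] (n : ℕ) (S : Finset α) : Finset (Fin n → α) := Fintype.piFinset (fun _ : Fin n => S)

open Classical in
theorem result (θ η lam ρ δ B κ₀ : ℝ) (hθ : 0 < θ) (hlam : 0 < lam) (hρ : 0 < ρ) (hδ : 0 < δ) (hκ₀ : 0 < κ₀) :
    ∃ n₀ : ℕ, ∀ n : ℕ, 1 ≤ n → ∃ κ X₀ : ℝ, 0 < κ ∧ ∀ X : ℝ, X₀ ≤ X → ∀ H : ℝ, lam * Real.log X ≤ H → H ≤ X ^ (1 - ρ) →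
    ∀ (A : Finset ℕ) (E C : Finset ℝ), Dense δ θ X A → (∀ e ∈ E, κ₀ * X ^ η ≤ e ∧ e ≤ X ^ η) → Spread B H (θ + η) X C →
    -- the normalised number of primes is uncorrelated with the functions `F (a, e) G (e, c)`
    (∀ (F : ℕ → ℝ → ℂ) (G : ℝ → ℝ → ℂ), (∀ a ∈ A, ∀ e ∈ E, ‖F a e‖ ≤ 1) → (∀ e ∈ E, ∀ c ∈ C, ‖G e c‖ ≤ 1) →
      ‖∑ a ∈ A, ∑ e ∈ E, ∑ c ∈ C, F a e * G e c * ((density H (a * e * c) : ℂ) - 1)‖ ≤ δ * (A.card * E.card * C.card)) ∧
    ∀ R : Finset (ℕ × ℝ), R ⊆ A ×ˢ E → δ * (A.card * E.card) ≤ R.card →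
    -- the asymptotic formula on average over one set, for almost every element of the other set
    ((C.filter (fun c => δ * R.card < |∑ r ∈ R, density H (r.1 * r.2 * c) - R.card|)).card : ℝ) ≤ δ * C.card ∧
    ((R.filter (fun r : ℕ × ℝ => δ * C.card < |∑ c ∈ C, density H (r.1 * r.2 * c) - C.card|)).card : ℝ) ≤ δ * R.card ∧
    -- a positive proportion has primes in all the `n` windows at once, for almost every `n`-tuple
    (((tuples n C).filter (fun y => ¬
      (κ * R.card ≤ ((R.filter (fun r : ℕ × ℝ => ∀ j, HasPrime H (r.1 * r.2 * y j))).card : ℝ)))).card : ℝ) ≤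
        δ * (C.card : ℝ) ^ n ∧
    (((tuples n R).filter (fun y => ¬
      (κ * C.card ≤ ((C.filter (fun c => ∀ j, HasPrime H ((y j).1 * (y j).2 * c))).card : ℝ)))).card : ℝ) ≤
        δ * (R.card : ℝ) ^ n ∧
    -- boundedly many windows suffice for almost all elements, for almost every `n`-tuple
    (n₀ ≤ n →
      (((tuples n C).filter (fun y => ¬
        ((1 - δ) * R.card ≤ ((R.filter (fun r : ℕ × ℝ => ∃ j, HasPrime H (r.1 * r.2 * y j))).card : ℝ)))).card : ℝ) ≤
          δ * (C.card : ℝ) ^ n ∧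
      (((tuples n R).filter (fun y => ¬
        ((1 - δ) * C.card ≤ ((C.filter (fun c => ∃ j, HasPrime H ((y j).1 * (y j).2 * c))).card : ℝ)))).card : ℝ) ≤
          δ * (R.card : ℝ) ^ n) := by
  have hκm : 0 < min κ₀ 1 := lt_min hκ₀ one_pos
  obtain ⟨κ₂, M₂, hκ₂, hM₂, hbase₂⟩ := Pool.Agent.U124.BW.base2 θ η lam ρ δ (max B 0) (min κ₀ 1) (δ * (δ ^ 2 / 16)) hθ hlam hρ hδ
    (le_max_right _ _) hκm (min_le_right _ _) (by positivity)
  obtain ⟨n₀, habs⟩ := Pool.Agent.U124.BW.abs_products (α := ℕ × ℝ) (β := ℝ) δ M₂ hδ hM₂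
  refine ⟨n₀, fun n hn => ?_⟩
  obtain ⟨f, hf, habs1⟩ := habs n hn
  obtain ⟨κ₁, M, hκ₁, hM, hbase⟩ := Pool.Agent.U124.BW.base2 θ η lam ρ δ (max B 0) (min κ₀ 1) (δ * f) hθ hlam hρ hδ
    (le_max_right _ _) hκm (min_le_right _ _) (by positivity)
  obtain ⟨κ, δ', hκ, hδ', habs2⟩ := habs1 M hM
  obtain ⟨d, hd⟩ : ∃ d, d = min (δ * δ') (min (δ ^ 3 / 2) (δ / 8)) := ⟨_, rfl⟩
  have hd0 : 0 < d := by rw [hd]; exact lt_min (by positivity) (lt_min (by positivity) (by positivity))
  have hd1 : d ≤ δ * δ' := by rw [hd]; exact min_le_left _ _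
  have hd2 : d ≤ δ ^ 3 / 2 := by rw [hd]; exact (min_le_right _ _).trans (min_le_left _ _)
  have hd3 : d ≤ δ / 8 := by rw [hd]; exact (min_le_right _ _).trans (min_le_right _ _)
  obtain ⟨X₀, hX₀⟩ := Filter.eventually_atTop.1 (((hbase₂ d hd0).and (hbase d hd0)).and (Filter.eventually_gt_atTop (1 : ℝ)))
  refine ⟨κ, X₀, hκ, fun X hX H hH1 hH2 A E C hA hE hC => ?_⟩
  obtain ⟨⟨h2, h1⟩, hX1⟩ := hX₀ X hX
  have hX0 : 0 < X := by linarith
  have hHp : 0 < H := lt_of_lt_of_le (mul_pos hlam (Real.log_pos hX1)) hH1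
  have hE' : ∀ e ∈ E, min κ₀ 1 * X ^ η ≤ e ∧ e ≤ X ^ η := by
    intro e he
    refine ⟨le_trans ?_ (hE e he).1, (hE e he).2⟩
    exact mul_le_mul_of_nonneg_right (min_le_left _ _) (by positivity)
  have hsp : Pool.Agent.Y851.PT.SpH (max B 0) H (θ + η) X C := by
    refine ⟨fun c hc => (hC.1 c hc).1, fun c hc => (hC.1 c hc).2, fun u => (hC.2 u).trans ?_⟩
    apply mul_le_mul_of_nonneg_right _ (Nat.cast_nonneg _)
    exact mul_le_mul_of_nonneg_right (le_max_left _ _) (div_pos hHp hX0).le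
  obtain ⟨hH0, hcut, hs₂, hm₂⟩ := h2 H hH1 hH2 A E C hA hE' hsp
  obtain ⟨-, -, hs, hm⟩ := h1 H hH1 hH2 A E C hA hE' hsp
  have hW : ∀ (a : ℕ) (e c : ℝ), Pool.Agent.U124.BW.WH H (a, e) c = density H (a * e * c) := by
    intro a e c
    unfold Pool.Agent.U124.BW.WH
    rw [Pool.Agent.Y851.PT.ZH_eq, ← mul_assoc]
    rfl
  have hP : ∀ (r : ℕ × ℝ) (c : ℝ), 0 < Pool.Agent.U124.BW.WH H r c ↔ HasPrime H (r.1 * r.2 * c) := by
    intro r c
    unfold Pool.Agent.U124.BW.WH
    rw [Pool.Agent.Y851.PT.ZH_pos_iff hH0, ← mul_assoc]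
    rfl
  refine ⟨fun F G hF hG => ?_, fun R hR hRd => ?_⟩
  · have h3 := Pool.Agent.U124.BW.tri hcut F G hF hG
    simp only [hW] at h3
    refine h3.trans ?_
    have h4 : (0 : ℝ) ≤ A.card * E.card * C.card := by positivity
    exact mul_le_mul_of_nonneg_right (by linarith) h4
  have hcutR := Pool.Agent.U124.BW.cut_rel hd0.le hδ hcut R hR hRd
  have hdd1 : d / δ ≤ δ' := by rw [div_le_iff₀ hδ]; linarith
  have hmean : 2 * (d / δ) ≤ δ ^ 2 := by
    rw [mul_div_assoc', div_le_iff₀ hδ]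
    linarith
  have hW' : ∀ (r : ℕ × ℝ) (c : ℝ), Pool.Agent.U124.BW.WH H r c = density H (r.1 * r.2 * c) := fun r c => hW r.1 r.2 c
  have hcutR' := Pool.Agent.Y851.PT.cut_mono hcutR hdd1
  have hm1 := hcutR.mean hδ hmean
  have hm2 := hcutR.swap.mean hδ hmean
  simp only [hW'] at hm1 hm2
  have key := habs2 R C (fun r c => Pool.Agent.U124.BW.WH H r c) (fun r => κ₁ * X ^ θ ≤ (r.1 : ℝ))
    (fun r => κ₂ * X ^ θ ≤ (r.1 : ℝ)) (fun r c => Pool.Agent.Y851.PT.ZH_nonneg hH0.le _) hcutR'
    (by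
      have := Pool.Agent.U124.BW.small_rel (t := κ₁ * X ^ θ) hf.le hδ hs R hR hRd
      convert this)
    (by
      have := Pool.Agent.U124.BW.small_rel (t := κ₂ * X ^ θ) (f := δ ^ 2 / 16) (by positivity) hδ hs₂ R hR hRd
      convert this)
    (fun r hr hκr => by
      have h5 := mem_product.1 (hR hr)
      exact hm r.2 h5.2 r.1 h5.1 hκr)
    (fun r hr hκr => by
      have h5 := mem_product.1 (hR hr)
      exact hm₂ r.2 h5.2 r.1 h5.1 hκr)
  simp only [hP] at key
  obtain ⟨k1, k2, k3⟩ := key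
  refine ⟨?_, ?_, ?_, ?_, fun hn2 => ⟨?_, ?_⟩⟩
  · convert hm1
  · convert hm2
  · unfold tuples; convert k1
  · unfold tuples; convert k2
  · unfold tuples; convert (k3 hn2).1
  · unfold tuples; convert (k3 hn2).2

end Pool.Agent.Results.MP_31d0eb_nt.WindowsOnRelations
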